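import Pool.Agent.H95.FI.Defs

open MvPolynomial

namespace H94.FI
open H95.FG H95.FI

theorem dt_comm {n : ℕ} (z Y : Fin n → ℂ) : dt z Y = dt Y z := by
  unfold dt; exact Finset.sum_congr rfl fun k _ => mul_comm _ _

theorem dt_left {n r : ℕ} (a : Fin n → ℂ) (u : Fin r → Fin n → ℂ) (x : Fin r → ℂ)
    (Y : Fin n → ℂ) :
    dt (fun k => a k + ∑ i, x i * u i k) Y = dt a Y + ∑ i, x i * dt (u i) Y := by
  unfold dt
  simp only [add_mul, Finset.sum_add_distrib, Finset.sum_mul, Finset.mul_sum]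
  rw [Finset.sum_comm]
  simp only [mul_assoc]

theorem dt_right {n r : ℕ} (a : Fin n → ℂ) (v : Fin r → Fin n → ℂ) (y : Fin r → ℂ)
    (z : Fin n → ℂ) :
    dt z (fun k => a k + ∑ i, y i * v i k) = dt z a + ∑ i, y i * dt z (v i) := by
  rw [dt_comm, dt_left, dt_comm a z]
  congr 1
  exact Finset.sum_congr rfl fun i _ => by rw [dt_comm]

theorem ev_aeval {σ τ : Type} (g : σ → MvPolynomial τ ℂ) (x : τ → ℂ) (q : MvPolynomial σ ℂ) :
    eval x (aeval g q) = eval (fun k => eval x (g k)) q := by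
  induction q using MvPolynomial.induction_on with
  | C a => simp
  | add p q hp hq => rw [map_add, map_add, hp, hq, map_add]
  | mul_X p i hp => rw [map_mul, map_mul, hp, map_mul, aeval_X, eval_X]

theorem t_EF (hSCH : S_SCH) (hDUAL : S_DUAL) (hRK2 : S_RK2) (hNUL : S_NUL) : S_EF := by
  intro n m p A hS s hB hlt z0 Y0 hO hM z Y hz hY
  classical
  have hn : 2 * s + 3 ≤ n := by
    by_contra h
    have : n - 2 * s - 2 = 0 := by omega
    rw [this, zero_mul] at hlt
    omega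
  obtain ⟨r, u, v, hr1, hr2, hu, hv, huv, hrest⟩ := hDUAL n s z0 Y0 (by omega)
  by_contra hne
  have hr3 : 3 ≤ r := by omega
  -- the base points
  obtain ⟨za, hza⟩ : ∃ za : Fin n → ℂ, za = fun k => z k + ∑ i, (- dt z (v i)) * u i k := ⟨_, rfl⟩
  obtain ⟨Ya, hYa⟩ : ∃ Ya : Fin n → ℂ, Ya = fun k => Y k + ∑ i, (- dt (u i) Y) * v i k := ⟨_, rfl⟩
  have za1 : ∀ j, dt za (Y0 j) = 0 := by
    intro j
    rw [hza, dt_left, hz]
    simp [hu _ j]
  have Ya1 : ∀ i, dt (z0 i) Ya = 0 := by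
    intro i
    rw [hYa, dt_right, hY]
    simp [hv i]
  have za2 : ∀ j, dt za (v j) = 0 := by
    intro j
    rw [hza, dt_left]
    simp [huv]
  have Ya2 : ∀ i, dt (u i) Ya = 0 := by
    intro i
    rw [hYa, dt_right]
    simp [huv]
  have hzY : dt za Ya = 0 := hrest za Ya za1 Ya1 za2 Ya2
  -- the parametrisation
  obtain ⟨zf, hzf⟩ : ∃ zf : (Fin r → ℂ) → Fin n → ℂ,
      ∀ x, zf x = fun k => za k + ∑ i, x i * u i k := ⟨fun x k => za k + ∑ i, x i * u i k,
        fun _ => rfl⟩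
  obtain ⟨yf, hyf⟩ : ∃ yf : (Fin r → ℂ) → Fin n → ℂ,
      ∀ y, yf y = fun k => Ya k + ∑ i, y i * v i k := ⟨fun y k => Ya k + ∑ i, y i * v i k,
        fun _ => rfl⟩
  have zf1 : ∀ x j, dt (zf x) (Y0 j) = 0 := by
    intro x j
    rw [hzf, dt_left, za1]
    simp [hu _ j]
  have yf1 : ∀ y i, dt (z0 i) (yf y) = 0 := by
    intro y i
    rw [hyf, dt_right, Ya1]
    simp [hv i]
  have zy : ∀ x y, dt (zf x) (yf y) = ∑ i, x i * y i := by
    intro x y
    rw [hzf, dt_left, hyf, dt_right, hzY]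
    simp only [dt_right, za2, Ya2, huv]
    simp
  have zfz : zf (fun i => dt z (v i)) = z := by
    rw [hzf, hza]
    funext k
    simp
  have yfy : yf (fun i => dt (u i) Y) = Y := by
    rw [hyf, hYa]
    funext k
    simp
  -- polynomials
  obtain ⟨zP, hzP⟩ : ∃ zP : Fin n → Pn r, ∀ x k, eval x (zP k) = zf x k :=
    ⟨fun k => C (za k) + ∑ i, X i * C (u i k), fun x k => by rw [hzf]; simp⟩
  obtain ⟨yP, hyP⟩ : ∃ yP : Fin n → Pn r, ∀ y k, eval y (yP k) = yf y k :=
    ⟨fun k => C (Ya k) + ∑ i, X i * C (v i k), fun y k => by rw [hyf]; simp⟩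
  obtain ⟨TA, hTA⟩ : ∃ TA : Qn r, ∀ x y, eval (Sum.elim x y) TA = AA A (zf x) (yf y) := by
    refine ⟨aeval (Sum.elim (fun k => rename Sum.inl (zP k)) (fun k => rename Sum.inr (yP k))) A,
      fun x y => ?_⟩
    rw [ev_aeval]
    unfold AA
    congr 2
    funext k
    rcases k with k | k
    · simp only [Sum.elim_inl]
      rw [eval_rename, Sum.elim_comp_inl, hzP]
    · simp only [Sum.elim_inr]
      rw [eval_rename, Sum.elim_comp_inr, hyP]
  have hGex : ∀ j : Fin s, ∃ G : Pn r, ∀ x, eval x G = AA A (zf x) (Y0 j) := by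
    intro j
    refine ⟨aeval (Sum.elim zP (fun k => C (Y0 j k))) A, fun x => ?_⟩
    rw [ev_aeval]
    unfold AA
    congr 2
    funext k
    rcases k with k | k
    · simp only [Sum.elim_inl]; rw [hzP]
    · simp only [Sum.elim_inr]; rw [eval_C]
  have hHex : ∀ i : Fin s, ∃ H : Pn r, ∀ y, eval y H = AA A (z0 i) (yf y) := by
    intro i
    refine ⟨aeval (Sum.elim (fun k => C (z0 i k)) yP) A, fun y => ?_⟩
    rw [ev_aeval]
    unfold AA
    congr 2
    funext k
    rcases k with k | k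
    · simp only [Sum.elim_inl]; rw [eval_C]
    · simp only [Sum.elim_inr]; rw [hyP]
  choose G hG using hGex
  choose H hH using hHex
  obtain ⟨G', hG'⟩ : ∃ G' : Fin s → Pn r, ∀ i x, eval x (G' i) =
      ∑ j, AA A (zf x) (Y0 j) * (VM A z0 Y0)⁻¹ j i :=
    ⟨fun i => ∑ j, G j * C ((VM A z0 Y0)⁻¹ j i), fun i x => by simp [hG]⟩
  obtain ⟨RP, hRP⟩ : ∃ RP : Qn r, RP = ∑ i, rename Sum.inl (G' i) * rename Sum.inr (H i) :=
    ⟨_, rfl⟩
  have hRP' : ∀ x y, eval (Sum.elim x y) RP = RR A z0 Y0 (zf x) (yf y) := by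
    intro x y
    rw [hRP, RR]
    simp only [map_sum, map_mul]
    refine Finset.sum_congr rfl fun i _ => ?_
    rw [eval_rename, eval_rename, Sum.elim_comp_inl, Sum.elim_comp_inr, hG', hH, Finset.sum_mul]
  have hfun : ∀ P Q : Qn r, (∀ x y : Fin r → ℂ, eval (Sum.elim x y) P = eval (Sum.elim x y) Q) →
      P = Q := by
    intro P Q h
    apply MvPolynomial.funext
    intro w
    have := h (w ∘ Sum.inl) (w ∘ Sum.inr)
    rwa [Sum.elim_comp_inl_inr] at this
  -- `TA - RP` vanishes on the quadric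
  obtain ⟨B, hBe⟩ := hNUL r (TA - RP) (by omega) (by
    intro x y hxy
    show eval (Sum.elim x y) (TA - RP) = 0
    rw [map_sub, hTA, hRP', sub_eq_zero]
    apply hSCH n s A z0 Y0 (zf x) (yf y) hM
    by_contra hdet
    apply hB
    refine ⟨Fin.cons (zf x) z0, Fin.cons (yf y) Y0, ?_, hdet⟩
    intro i j
    refine Fin.cases ?_ (fun i => ?_) i <;> refine Fin.cases ?_ (fun j => ?_) j
    · simp only [Fin.cons_zero]; rw [zy, hxy]
    · simp only [Fin.cons_zero, Fin.cons_succ]; exact zf1 x j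
    · simp only [Fin.cons_zero, Fin.cons_succ]; exact yf1 y i
    · simp only [Fin.cons_succ]; exact hO i j)
  have hB0 : B ≠ 0 := by
    intro h0
    rw [h0, mul_zero, sub_eq_zero] at hBe
    apply hne
    have h1 := hTA (fun i => dt z (v i)) (fun i => dt (u i) Y)
    rw [hBe, hRP', zfz, yfy] at h1
    exact h1.symm
  -- the kernel
  obtain ⟨f1, hf1⟩ : ∃ f1 : Fin m → Pn r, ∀ l x, eval x (f1 l) = eval (zf x) (p l) :=
    ⟨fun l => aeval zP (p l), fun l x => by
      rw [ev_aeval]; congr 2; funext k; exact hzP x k⟩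
  obtain ⟨g1, hg1⟩ : ∃ g1 : Fin m → Pn r, ∀ l y, eval y (g1 l) = eval (yf y) (cj (p l)) :=
    ⟨fun l => aeval yP (cj (p l)), fun l y => by
      rw [ev_aeval]; congr 2; funext k; exact hyP y k⟩
  obtain ⟨f2, hf2⟩ : ∃ f2 : Fin (r * s) → Pn r, f2 = fun t =>
      -(X (finProdFinEquiv.symm t).1 * G' (finProdFinEquiv.symm t).2) := ⟨_, rfl⟩
  obtain ⟨g2, hg2⟩ : ∃ g2 : Fin (r * s) → Pn r, g2 = fun t =>
      X (finProdFinEquiv.symm t).1 * H (finProdFinEquiv.symm t).2 := ⟨_, rfl⟩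
  have hker : ∑ l, rename Sum.inl (Fin.append f1 f2 l) * rename Sum.inr (Fin.append g1 g2 l) =
      (SS r) ^ 2 * B := by
    apply hfun
    intro x y
    have hSS : eval (Sum.elim x y) (SS r) = ∑ i, x i * y i := by
      simp [SS]
    have e1 : eval (Sum.elim x y) ((SS r) ^ 2 * B) =
        (∑ i, x i * y i) * (AA A (zf x) (yf y) - RR A z0 Y0 (zf x) (yf y)) := by
      have h2 := congrArg (eval (Sum.elim x y)) hBe
      rw [map_sub, hTA, hRP', map_mul] at h2
      have h3 : eval (Sum.elim x y) (∑ k : Fin r, X (Sum.inl k) * X (Sum.inr k) : Qn r) =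
          ∑ i, x i * y i := hSS
      rw [h3] at h2
      rw [map_mul, map_pow, hSS, h2]
      ring
    have e2 : ∑ l, eval (zf x) (p l) * eval (yf y) (cj (p l)) =
        (∑ i, x i * y i) * AA A (zf x) (yf y) := by
      have h2 := congrArg (eval (Sum.elim (zf x) (yf y))) hS.2
      simp only [map_sum, map_mul, eval_rename, Sum.elim_comp_inl, Sum.elim_comp_inr, eval_X,
        Sum.elim_inl, Sum.elim_inr] at h2
      rw [h2, ← zy]
      rfl
    have e3 : ∑ t : Fin (r * s), eval x (f2 t) * eval y (g2 t) =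
        -((∑ i, x i * y i) * RR A z0 Y0 (zf x) (yf y)) := by
      rw [hf2, hg2]
      rw [← Equiv.sum_comp finProdFinEquiv]
      simp only [Equiv.symm_apply_apply]
      rw [Fintype.sum_prod_type]
      have h4 : RR A z0 Y0 (zf x) (yf y) = ∑ i, eval x (G' i) * eval y (H i) := by
        rw [RR]
        refine Finset.sum_congr rfl fun i _ => ?_
        rw [hG', hH, Finset.sum_mul]
      rw [h4, Finset.sum_mul_sum, ← Finset.sum_neg_distrib]
      refine Finset.sum_congr rfl fun k _ => ?_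
      rw [← Finset.sum_neg_distrib]
      refine Finset.sum_congr rfl fun i _ => ?_
      simp only [map_neg, map_mul, eval_X]
      ring
    rw [e1, Fin.sum_univ_add]
    simp only [Fin.append_left, Fin.append_right, map_add, map_sum, map_mul, eval_rename,
      Sum.elim_comp_inl, Sum.elim_comp_inr]
    rw [e3]
    simp only [hf1, hg1]
    rw [e2]
    ring
  have hfin := hRK2 r (m + r * s) (Fin.append f1 f2) (Fin.append g1 g2) B (by omega) hB0 hker
  have h5 : (n - 2 * s - 2) * (n - 2 * s - 1) ≤ (r - 2) * (r - 1) :=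
    Nat.mul_le_mul (by omega) (by omega)
  have h6 : r * s ≤ n * s := Nat.mul_le_mul_right _ hr2
  omega

end H94.FI
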