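import Pool.Agent.H95.FI.Defs

open MvPolynomial

namespace H94.FI
open H95.FG H95.FI

theorem t_SCH : S_SCH := by
  intro n s A z0 Y0 z Y hM h0
  classical
  obtain ⟨M, hMe⟩ : ∃ M : Matrix (Fin s) (Fin s) ℂ, M = VM A z0 Y0 := ⟨_, rfl⟩
  rw [← hMe] at hM
  have hMu : IsUnit M.det := isUnit_iff_ne_zero.2 hM
  let _ : Invertible M := Matrix.invertibleOfIsUnitDet M hMu
  obtain ⟨E, hE⟩ : ∃ E : Fin (s + 1) ≃ Fin s ⊕ PUnit.{1},
      E = (finSuccEquiv s).trans (Equiv.optionEquivSumPUnit (Fin s)) := ⟨_, rfl⟩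
  have hEl : ∀ i : Fin s, E.symm (Sum.inl i) = i.succ := by
    intro i; rw [hE]; simp
  have hEr : ∀ x : PUnit, E.symm (Sum.inr x) = 0 := by
    intro x; rw [hE]; simp
  have e1 : (VM A (Fin.cons z z0 : Fin (s + 1) → Fin n → ℂ)
      (Fin.cons Y Y0 : Fin (s + 1) → Fin n → ℂ)).submatrix E.symm E.symm =
      Matrix.fromBlocks M (Matrix.of fun i _ => AA A (z0 i) Y)
        (Matrix.of fun _ j => AA A z (Y0 j)) (Matrix.of fun _ _ => AA A z Y) := by
    ext a b
    rcases a with a | a <;> rcases b with b | b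
    · simp [VM, hEl, hMe]
    · simp [VM, hEl, hEr]
    · simp [VM, hEl, hEr]
    · simp [VM, hEr]
  have e2 := congrArg Matrix.det e1
  rw [Matrix.det_submatrix_equiv_self, h0, Matrix.det_fromBlocks₁₁] at e2
  have e3 := (mul_eq_zero.1 e2.symm).resolve_left hM
  rw [Matrix.det_unique] at e3
  rw [Matrix.sub_apply, sub_eq_zero] at e3
  have e4 : AA A z Y = (((Matrix.of fun (_ : PUnit.{1}) j => AA A z (Y0 j)) * ⅟M *
      (Matrix.of fun i (_ : PUnit.{1}) => AA A (z0 i) Y)) default default) := e3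
  rw [e4, Matrix.mul_apply, RR]
  refine Finset.sum_congr rfl fun i _ => ?_
  rw [Matrix.mul_apply, Finset.sum_mul]
  refine Finset.sum_congr rfl fun j _ => ?_
  rw [Matrix.invOf_eq_nonsing_inv, ← hMe]
  rfl

end H94.FI
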